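import Pool.Agent.Helper82.PN.GoalsF

/-!
# PN-FIBB: the combination of two bodies along lines is a body
-/

open MeasureTheory Set Metric
open Pool.Agent.Helper47.AQ
open Pool.Agent.Helper82.PN

namespace Pool.Agent.Helper9.PN

theorem gFIBB : FIBB := by
  intro ι _ v K₀ K₁ ρ hρ0 hρ1 h0 h1 h01 h10
  refine ⟨?_, ?_, ?_⟩
  · rintro _ ⟨x, hx, y, hy, ⟨a, ha⟩, rfl⟩ _ ⟨x', hx', y', hy', ⟨a', ha'⟩, rfl⟩ s t hs ht hst
    refine ⟨s • x + t • x', h0.conv hx hx' hs ht hst, s • y + t • y',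
      h1.conv hy hy' hs ht hst, ⟨s * a + t * a', ?_⟩, ?_⟩
    · have e : s • x + t • x' - (s • y + t • y') = s • (x - y) + t • (x' - y') := by module
      rw [e, ha, ha']
      module
    · module
  · have hcl : IsClosed {p : (ι → ℝ) × (ι → ℝ) | p.1 - p.2 ∈ Submodule.span ℝ {v}} :=
      (Submodule.closed_of_finiteDimensional (Submodule.span ℝ {v})).preimage (by fun_prop)
    have hc := ((h0.comp.prod h1.comp).inter_right hcl).image
      (f := fun p : (ι → ℝ) × (ι → ℝ) => (1 - ρ) • p.1 + ρ • p.2) (by fun_prop)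
    convert hc using 1
    ext z
    constructor
    · rintro ⟨x, hx, y, hy, ⟨a, ha⟩, rfl⟩
      exact ⟨(x, y), ⟨⟨hx, hy⟩, Submodule.mem_span_singleton.2 ⟨a, ha.symm⟩⟩, rfl⟩
    · rintro ⟨⟨x, y⟩, ⟨⟨hx, hy⟩, hs⟩, rfl⟩
      obtain ⟨a, ha⟩ := Submodule.mem_span_singleton.1 hs
      exact ⟨x, hx, y, hy, ⟨a, ha.symm⟩, rfl⟩
  · obtain ⟨p, hp⟩ := h0.int
    obtain ⟨q₀, hq₀⟩ := h1.int
    obtain ⟨p₁, hp₁, a, ha⟩ := h10 q₀ (interior_subset hq₀)
    have hc : Continuous fun δ : ℝ => p + δ • (p - p₁) := by fun_prop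
    have hnh : ∀ᶠ δ : ℝ in nhds 0, p + δ • (p - p₁) ∈ K₀ := by
      apply hc.continuousAt.eventually_mem
      simpa using mem_interior_iff_mem_nhds.1 hp
    obtain ⟨ε, hε, hball⟩ := Metric.eventually_nhds_iff.1 hnh
    set δ := ε / 2 with hδd
    have hδ : 0 < δ := by positivity
    have hx' : p + δ • (p - p₁) ∈ K₀ := hball (by
      rw [dist_zero_right, Real.norm_eq_abs, abs_of_pos hδ]; linarith)
    obtain ⟨y', hy', b, hb⟩ := h01 _ hx'
    have h1δ : 0 < 1 + δ := by positivity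
    have hq : (1 / (1 + δ)) • y' + (δ / (1 + δ)) • q₀ ∈ interior K₁ :=
      h1.conv.combo_self_interior_mem_interior hy' hq₀ (by positivity) (by positivity)
        (by field_simp)
    set q := (1 / (1 + δ)) • y' + (δ / (1 + δ)) • q₀ with hqd
    have hpq : p - q = ((1 / (1 + δ)) * b + (δ / (1 + δ)) * a) • v := by
      have e1 : p = (1 / (1 + δ)) • (p + δ • (p - p₁)) + (δ / (1 + δ)) • p₁ := by
        have : (1 / (1 + δ)) • (p + δ • (p - p₁)) + (δ / (1 + δ)) • p₁ =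
            ((1 / (1 + δ)) * (1 + δ)) • p := by
          module
        rw [this, one_div, inv_mul_cancel₀ h1δ.ne', one_smul]
      have e2 : p - q = (1 / (1 + δ)) • ((p + δ • (p - p₁)) - y') +
          (δ / (1 + δ)) • (p₁ - q₀) := by
        rw [hqd]
        nth_rw 1 [e1]
        module
      rw [e2, hb, ha]
      module
    obtain ⟨ε₀, hε₀, hb₀⟩ := Metric.mem_nhds_iff.1 (mem_interior_iff_mem_nhds.1 hp)
    obtain ⟨ε₁, hε₁, hb₁⟩ := Metric.mem_nhds_iff.1 (mem_interior_iff_mem_nhds.1 hq)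
    refine ⟨(1 - ρ) • p + ρ • q, mem_interior_iff_mem_nhds.2 (Metric.mem_nhds_iff.2
      ⟨min ε₀ ε₁, lt_min hε₀ hε₁, fun w hw => ?_⟩)⟩
    rw [mem_ball, dist_eq_norm] at hw
    set u := w - ((1 - ρ) • p + ρ • q) with hu
    refine ⟨p + u, hb₀ ?_, q + u, hb₁ ?_, ⟨(1 / (1 + δ)) * b + (δ / (1 + δ)) * a, ?_⟩, ?_⟩
    · rw [mem_ball, dist_eq_norm, add_sub_cancel_left]
      exact hw.trans_le (min_le_left _ _)
    · rw [mem_ball, dist_eq_norm, add_sub_cancel_left]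
      exact hw.trans_le (min_le_right _ _)
    · rw [← hpq]; abel
    · have : w = (1 - ρ) • p + ρ • q + u := by rw [hu]; abel
      rw [this]
      module

end Pool.Agent.Helper9.PN
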